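import Mathlib
import Pool.Agent.Q188.CH.Space

/-!
# MP_3984bd_an: a complete countably dimensional space with a hypercyclic operator

The space is `𝕜[t]`, the operator is multiplication by `t` and the hypercyclic vector is `1`.
Let `d i` be polynomials of degree `< 2 ^ i` such that every polynomial of a countable dense set
occurs as `d (pair j l)` for some `j` and all large `l`.  For `n = 2 ^ i + m`, `m < 2 ^ i`, put
`e n = 2 ^ n t ^ m (t ^ (2 ^ i) - d i)`, and `e 0 = 1`; this is a Hamel basis with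
`t e n = (1/2) e (n + 1)` except at the ends of the dyadic blocks.  The topology is generated by
the seminorms `∑ w n |x n|` (coordinates in this basis), where the weight `w` is bounded along
the ultrafilters `l ↦ 2 ^ (pair j l) + m` for all `j`, `m`.  Weights may be arbitrarily
large on suitable infinite subsets of any infinite set, hence completeness; and
`t ^ (2 ^ i) = d i + 2 ^ (- 2 ^ i) e (2 ^ i)` gives the density of the orbit.
-/

set_option autoImplicit false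

open Filter Topology Set Polynomial
open scoped NNReal

namespace Pool.Agent.Results.MP_3984bd_an.CompleteHypercyclic

open Pool.Agent.Q188.CH

variable {𝕜 : Type} [RCLike 𝕜]

/-! ### The weights -/

/-- weights bounded along all the ultrafilters -/
def W : Set (ℕ → ℝ≥0) :=
  {w | ∀ j m : ℕ, ∃ B : ℝ≥0, ∀ᶠ l in (hyperfilter ℕ : Filter ℕ), w (2 ^ Nat.pair j l + m) ≤ B}

lemma W_one : (fun _ => 1) ∈ W := fun _ _ => ⟨1, Eventually.of_forall fun _ => le_rfl⟩

lemma W_add : ∀ w ∈ W, ∀ w' ∈ W, (fun n => w n + w' n) ∈ W := by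
  intro w hw w' hw' j m
  obtain ⟨B, hB⟩ := hw j m
  obtain ⟨B', hB'⟩ := hw' j m
  exact ⟨B + B', (hB.and hB').mono fun l hl => add_le_add hl.1 hl.2⟩

lemma tendsto_pow_pair (j : ℕ) : Tendsto (fun l => 2 ^ Nat.pair j l) (hyperfilter ℕ : Filter ℕ)
    atTop := by
  have h1 : Tendsto (fun l => 2 ^ Nat.pair j l) atTop atTop := by
    refine tendsto_atTop_mono (fun l => ?_) tendsto_id
    exact (Nat.right_le_pair j l).trans Nat.lt_two_pow_self.le
  exact h1.mono_left Nat.hyperfilter_le_atTop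

lemma block_unique {i i' m m' : ℕ} (hm : m < 2 ^ i) (hm' : m' < 2 ^ i')
    (h : 2 ^ i + m = 2 ^ i' + m') : i = i' ∧ m = m' := by
  have h1 : Nat.log 2 (2 ^ i + m) = i :=
    (Nat.log_eq_iff (Or.inr ⟨one_lt_two, by positivity⟩)).2 ⟨by omega, by rw [pow_succ]; omega⟩
  have h2 : Nat.log 2 (2 ^ i' + m') = i' :=
    (Nat.log_eq_iff (Or.inr ⟨one_lt_two, by positivity⟩)).2 ⟨by omega, by rw [pow_succ]; omega⟩
  have h3 : i = i' := by rw [← h1, h, h2]
  subst h3
  exact ⟨rfl, by omega⟩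

/-- an infinite set contains an infinite subset that is negligible for all the ultrafilters -/
lemma exists_thin (S : Set ℕ) (hS : S.Infinite) : ∃ S' ⊆ S, S'.Infinite ∧
    ∀ j m : ℕ, ∀ᶠ l in (hyperfilter ℕ : Filter ℕ), 2 ^ Nat.pair j l + m ∉ S' := by
  by_cases hcase : ∀ j m : ℕ, ∀ᶠ l in (hyperfilter ℕ : Filter ℕ), 2 ^ Nat.pair j l + m ∉ S
  · exact ⟨S, subset_rfl, hS, hcase⟩
  push Not at hcase
  obtain ⟨j, m, hjm⟩ := hcase
  have hL : {l | 2 ^ Nat.pair j l + m ∈ S ∧ m < 2 ^ Nat.pair j l} ∈ hyperfilter ℕ := by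
    have h1 : ∀ᶠ l in (hyperfilter ℕ : Filter ℕ), 2 ^ Nat.pair j l + m ∈ S := by
      simpa using hjm
    exact h1.and ((tendsto_pow_pair j).eventually_gt_atTop m)
  set L := {l | 2 ^ Nat.pair j l + m ∈ S ∧ m < 2 ^ Nat.pair j l} with hLdef
  have hLinf : L.Infinite := fun hfin => hfin.notMem_hyperfilter hL
  -- split `L`
  obtain ⟨L', hL'L, hL'inf, hL'⟩ : ∃ L' ⊆ L, L'.Infinite ∧ L' ∉ hyperfilter ℕ := by
    let φ := hLinf.natEmbedding
    let f : ℕ → ℕ := fun k => φ k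
    have hf : Function.Injective f := fun a c h => φ.injective (Subtype.ext h)
    have hfL : ∀ k, f k ∈ L := fun k => (φ k).2
    by_cases h : (f '' {k | Even k}) ∈ hyperfilter ℕ
    · refine ⟨f '' {k | ¬ Even k}, by rintro _ ⟨k, -, rfl⟩; exact hfL k, ?_, fun h' => ?_⟩
      · refine Set.Infinite.image hf.injOn ?_
        refine Set.infinite_of_injective_forall_mem (f := fun k => 2 * k + 1)
          (fun a c h => by simpa using h) fun k => ?_
        simp
      · have := Filter.inter_mem h h'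
        rw [← Set.image_inter hf] at this
        have he : {k : ℕ | Even k} ∩ {k | ¬ Even k} = ∅ := by
          ext k
          simp
        rw [he, image_empty] at this
        exact Ultrafilter.empty_notMem this
    · refine ⟨f '' {k | Even k}, by rintro _ ⟨k, -, rfl⟩; exact hfL k, ?_, h⟩
      refine Set.Infinite.image hf.injOn ?_
      exact Set.infinite_of_injective_forall_mem (f := fun k => 2 * k)
          (fun a c h => by simpa using h) fun k => by simp
  refine ⟨(fun l => 2 ^ Nat.pair j l + m) '' L', ?_, ?_, fun j' m' => ?_⟩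
  · rintro _ ⟨l, hl, rfl⟩
    exact (hL'L hl).1
  · refine Set.Infinite.image (fun a ha c hc h => ?_) hL'inf
    have := (block_unique (hL'L ha).2 (hL'L hc).2 h).1
    exact (Nat.pair_eq_pair.1 this).2
  · by_cases hjm' : j' = j ∧ m' = m
    · obtain ⟨rfl, rfl⟩ := hjm'
      have h2 : ∀ᶠ l in (hyperfilter ℕ : Filter ℕ), l ∉ L' :=
        Ultrafilter.compl_mem_iff_notMem.2 hL'
      filter_upwards [h2, (tendsto_pow_pair j').eventually_gt_atTop m'] with l hl hl'
      rintro ⟨l', hl'', heq⟩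
      have := (block_unique (hL'L hl'').2 hl' heq).1
      have h3 : l' = l := (Nat.pair_eq_pair.1 this).2
      exact hl (h3 ▸ hl'')
    · filter_upwards [(tendsto_pow_pair j').eventually_gt_atTop m'] with l hl'
      rintro ⟨l', hl'', heq⟩
      obtain ⟨h3, h4⟩ := block_unique (hL'L hl'').2 hl' heq
      exact hjm' ⟨(Nat.pair_eq_pair.1 h3).1.symm, h4.symm⟩

lemma W_tall (a : ℕ → 𝕜) (ha : {n | a n ≠ 0}.Infinite) :
    ∃ w ∈ W, {n | 2 ≤ (w n : ℝ) * ‖a n‖}.Infinite := by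
  classical
  obtain ⟨S', hS', hinf, hthin⟩ := exists_thin _ ha
  refine ⟨fun n => if n ∈ S' then 2 * ‖a n‖₊⁻¹ else 0, fun j m => ⟨0, ?_⟩, ?_⟩
  · filter_upwards [hthin j m] with l hl
    rw [if_neg hl]
  · refine hinf.mono fun n hn => ?_
    have h1 : ‖a n‖ ≠ 0 := norm_ne_zero_iff.2 (hS' hn)
    simp only [mem_ofPred_eq, if_pos hn, NNReal.coe_mul, NNReal.coe_ofNat, NNReal.coe_inv, coe_nnnorm]
    rw [mul_assoc, inv_mul_cancel₀ h1, mul_one]

/-! ### The polynomials -/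

/-- the basis polynomials attached to a sequence `d` of polynomials -/
noncomputable def e (d : ℕ → 𝕜[X]) (n : ℕ) : 𝕜[X] :=
  if n = 0 then 1 else
    C ((2 : 𝕜) ^ n) * (X ^ (n - 2 ^ Nat.log 2 n) * (X ^ 2 ^ Nat.log 2 n - d (Nat.log 2 n)))

lemma e_block (d : ℕ → 𝕜[X]) {i m : ℕ} (hm : m < 2 ^ i) :
    e d (2 ^ i + m) = C ((2 : 𝕜) ^ (2 ^ i + m)) * (X ^ m * (X ^ 2 ^ i - d i)) := by
  have h1 : Nat.log 2 (2 ^ i + m) = i :=
    (Nat.log_eq_iff (Or.inr ⟨one_lt_two, by positivity⟩)).2 ⟨by omega, by rw [pow_succ]; omega⟩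
  have h2 : 2 ^ i + m ≠ 0 := by positivity
  rw [e, if_neg h2, h1, Nat.add_sub_cancel_left]

lemma e_degree (d : ℕ → 𝕜[X]) (hd : ∀ i, (d i).degree < ((2 ^ i : ℕ) : WithBot ℕ)) (n : ℕ) :
    (e d n).degree = n := by
  rcases Nat.eq_zero_or_pos n with rfl | hn
  · simp [e]
  · obtain ⟨i, m, hm, rfl⟩ : ∃ i m, m < 2 ^ i ∧ n = 2 ^ i + m := by
      refine ⟨Nat.log 2 n, n - 2 ^ Nat.log 2 n, ?_, ?_⟩
      · have := Nat.lt_pow_succ_log_self one_lt_two n
        rw [pow_succ] at this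
        omega
      · have := Nat.pow_log_le_self 2 hn.ne'
        omega
    rw [e_block d hm, degree_C_mul (pow_ne_zero _ two_ne_zero), degree_mul, degree_X_pow,
      degree_sub_eq_left_of_degree_lt (by rw [degree_X_pow]; exact hd i), degree_X_pow]
    push_cast
    rw [add_comm]

/-- the sequence of polynomials -/
noncomputable def sq (d : ℕ → 𝕜[X]) (hd : ∀ i, (d i).degree < ((2 ^ i : ℕ) : WithBot ℕ)) :
    Polynomial.Sequence 𝕜 := ⟨e d, e_degree d hd⟩

/-- the Hamel basis -/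
noncomputable def bas (d : ℕ → 𝕜[X]) (hd : ∀ i, (d i).degree < ((2 ^ i : ℕ) : WithBot ℕ)) :
    Module.Basis ℕ 𝕜 𝕜[X] :=
  (sq d hd).basis fun i => by
    rw [isUnit_iff_ne_zero, Ne, leadingCoeff_eq_zero]
    exact (sq d hd).ne_zero i

lemma bas_apply (d : ℕ → 𝕜[X]) (hd : ∀ i, (d i).degree < ((2 ^ i : ℕ) : WithBot ℕ)) (n : ℕ) :
    bas d hd n = e d n := by
  simp [bas, sq, Polynomial.Sequence.basis]

/-! ### Multiplication by the variable -/

/-- multiplication by `X` -/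
noncomputable def T (𝕜 : Type) [RCLike 𝕜] : 𝕜[X] →ₗ[𝕜] 𝕜[X] := LinearMap.mulLeft 𝕜 X

/-- the weight dominating `T` -/
noncomputable def tw (b : Module.Basis ℕ 𝕜 𝕜[X]) (w : ℕ → ℝ≥0) (n : ℕ) : ℝ≥0 :=
  ⟨psn b w (T 𝕜 (b n)), apply_nonneg _ _⟩

lemma tw_mem (d : ℕ → 𝕜[X]) (hd : ∀ i, (d i).degree < ((2 ^ i : ℕ) : WithBot ℕ))
    {w : ℕ → ℝ≥0} (hw : w ∈ W) : tw (bas d hd) w ∈ W := by
  intro j m
  obtain ⟨B, hB⟩ := hw j (m + 1)
  refine ⟨B, ?_⟩
  filter_upwards [hB, (tendsto_pow_pair j).eventually_gt_atTop (m + 1)] with l hl hl'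
  have h1 : T 𝕜 (bas d hd (2 ^ Nat.pair j l + m))
      = (2 : 𝕜)⁻¹ • bas d hd (2 ^ Nat.pair j l + (m + 1)) := by
    rw [bas_apply, bas_apply, e_block d (by omega : m < 2 ^ Nat.pair j l), e_block d hl',
      smul_eq_C_mul, T, LinearMap.mulLeft_apply, ← mul_assoc (C (2 : 𝕜)⁻¹), ← C_mul]
    have h2 : (2 : 𝕜)⁻¹ * 2 ^ (2 ^ Nat.pair j l + (m + 1)) = 2 ^ (2 ^ Nat.pair j l + m) := by
      rw [← add_assoc, pow_succ, mul_comm, mul_assoc, mul_inv_cancel₀ two_ne_zero, mul_one]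
    rw [h2]
    ring
  have h3 : psn (bas d hd) w (T 𝕜 (bas d hd (2 ^ Nat.pair j l + m))) ≤ B := by
    rw [h1, map_smul_eq_mul, psn_basis, norm_inv, RCLike.norm_ofNat]
    have h4 : (w (2 ^ Nat.pair j l + (m + 1)) : ℝ) ≤ B := by exact_mod_cast hl
    have h5 : (0 : ℝ) ≤ w (2 ^ Nat.pair j l + (m + 1)) := (w _).2
    linarith
  exact_mod_cast h3

/-! ### The dense set -/

/-- a dense sequence of scalars starting with zero -/
noncomputable def s (𝕜 : Type) [RCLike 𝕜] : ℕ → 𝕜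
  | 0 => 0
  | k + 1 => TopologicalSpace.denseSeq 𝕜 k

lemma exists_s (a : 𝕜) {δ : ℝ} (hδ : 0 < δ) : ∃ k, ‖a - s 𝕜 k‖ < δ := by
  obtain ⟨k, hk⟩ := (TopologicalSpace.denseRange_denseSeq 𝕜).exists_dist_lt a hδ
  exact ⟨k + 1, by rwa [← dist_eq_norm]⟩

/-- the polynomial with coefficients coded by `c` -/
noncomputable def poly (c : ℕ →₀ ℕ) : 𝕜[X] := ∑ n ∈ c.support, monomial n (s 𝕜 (c n))

lemma exists_poly (q : Seminorm 𝕜 𝕜[X]) (f : 𝕜[X]) {ε : ℝ} (hε : 0 < ε) :
    ∃ c : ℕ →₀ ℕ, q (f - poly c) < ε := by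
  classical
  set M : ℝ := ∑ n ∈ f.support, q (monomial n 1) with hM
  have hM0 : 0 ≤ M := Finset.sum_nonneg fun n _ => apply_nonneg _ _
  obtain ⟨δ, hδ, hδM⟩ : ∃ δ : ℝ, 0 < δ ∧ δ * M < ε := by
    refine ⟨ε / (M + 1), by positivity, ?_⟩
    rw [div_mul_eq_mul_div, div_lt_iff₀ (by positivity)]
    nlinarith
  choose g hg using fun a : 𝕜 => exists_s a hδ
  let c : ℕ →₀ ℕ := Finsupp.onFinset f.support (fun n => if n ∈ f.support then g (f.coeff n) else 0)
    fun n hn => by by_contra h; simp [h] at hn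
  have hc : ∀ n, c n = if n ∈ f.support then g (f.coeff n) else 0 := fun n => rfl
  refine ⟨c, ?_⟩
  have h1 : poly c = ∑ n ∈ f.support, monomial n (s 𝕜 (c n)) := by
    refine Finset.sum_subset (fun n hn => ?_) fun n _ hn => ?_
    · by_contra h
      rw [Finsupp.mem_support_iff, hc, if_neg h] at hn
      exact hn rfl
    · rw [Finsupp.notMem_support_iff.1 hn]
      simp [s]
  have h2 : f - poly c = ∑ n ∈ f.support, (f.coeff n - s 𝕜 (c n)) • monomial n (1 : 𝕜) := by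
    conv_lhs => rw [f.as_sum_support]
    rw [h1, ← Finset.sum_sub_distrib]
    refine Finset.sum_congr rfl fun n _ => ?_
    rw [smul_monomial, smul_eq_mul, mul_one, map_sub]
  rw [h2]
  refine lt_of_le_of_lt ?_ hδM
  rw [hM, Finset.mul_sum]
  refine (Finset.le_sum_of_subadditive q (map_zero q).le (map_add_le_add q) _ _).trans
    (Finset.sum_le_sum fun n hn => ?_)
  rw [map_smul_eq_mul, hc, if_pos hn]
  exact mul_le_mul_of_nonneg_right (hg _).le (apply_nonneg _ _)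

/-- For `𝕜 = ℝ` or `ℂ` there is a complete Hausdorff locally convex space over `𝕜` of countably
infinite Hamel dimension that supports a hypercyclic operator. -/
theorem _root_.Pool.Agent.Results.MP_3984bd_an.CompleteHypercyclic.result
    (𝕜 : Type) [RCLike 𝕜] :
    ∃ (V : Type) (_ : AddCommGroup V) (_ : Module 𝕜 V) (_ : UniformSpace V)
      (_ : IsUniformAddGroup V) (_ : ContinuousSMul 𝕜 V),
      T2Space V ∧
      (∀ U ∈ 𝓝 (0 : V), ∃ O ∈ 𝓝 (0 : V), O ⊆ U ∧ ∀ x ∈ O, ∀ y ∈ O, ∀ t : ℝ, 0 ≤ t → t ≤ 1 →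
        (t : 𝕜) • x + ((1 - t : ℝ) : 𝕜) • y ∈ O) ∧
      CompleteSpace V ∧
      Module.rank 𝕜 V = Cardinal.aleph0 ∧
      ∃ (S : V →L[𝕜] V) (x : V), Dense (range fun n : ℕ => (S ^ n) x) := by
  classical
  obtain ⟨φ, hφ⟩ := exists_surjective_nat (ℕ →₀ ℕ)
  let D : ℕ → 𝕜[X] := fun j => poly (φ j)
  let d : ℕ → 𝕜[X] := fun i =>
    if (D (Nat.unpair i).1).degree < ((2 ^ i : ℕ) : WithBot ℕ) then D (Nat.unpair i).1 else 0
  have hd : ∀ i, (d i).degree < ((2 ^ i : ℕ) : WithBot ℕ) := by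
    intro i
    by_cases h : (D (Nat.unpair i).1).degree < ((2 ^ i : ℕ) : WithBot ℕ)
    · simp only [d, if_pos h]; exact h
    · simp only [d, if_neg h, degree_zero]
      exact WithBot.bot_lt_coe _
  let b := bas d hd
  obtain ⟨u, i1, i2, hp, hcomp, hT2⟩ := space b W W_one W_add W_tall
  refine ⟨𝕜[X], inferInstance, inferInstance, u, i1, i2, hT2, ?_, hcomp, ?_, ?_⟩
  · intro U hU
    obtain ⟨⟨F, r⟩, hr, hF⟩ := hp.hasBasis_zero_ball.mem_iff.1 hU
    refine ⟨_, hp.hasBasis_zero_ball.mem_of_mem (i := (F, r)) hr, hF, fun x hx y hy t h0 h1 => ?_⟩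
    simp only [Seminorm.mem_ball_zero] at hx hy ⊢
    have hr' : (0 : ℝ) < r := hr
    calc (F.sup (fam b W)) ((t : 𝕜) • x + ((1 - t : ℝ) : 𝕜) • y)
        ≤ (F.sup (fam b W)) ((t : 𝕜) • x) + (F.sup (fam b W)) (((1 - t : ℝ) : 𝕜) • y) :=
          map_add_le_add _ _ _
      _ = t * (F.sup (fam b W)) x + (1 - t) * (F.sup (fam b W)) y := by
          rw [map_smul_eq_mul, map_smul_eq_mul, RCLike.norm_ofReal, RCLike.norm_ofReal,
            abs_of_nonneg h0, abs_of_nonneg (by linarith)]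
      _ < r := by
          rcases h0.eq_or_lt with rfl | h0
          · simpa using hy
          · nlinarith [mul_lt_mul_of_pos_left hx h0,
              mul_le_mul_of_nonneg_left hy.le (by linarith : (0 : ℝ) ≤ 1 - t)]
  · rw [← b.mk_eq_rank'', Cardinal.mk_nat]
  · have hcont : Continuous (T 𝕜) := by
      refine WithSeminorms.continuous_of_isBounded hp hp (T 𝕜) fun w => ?_
      refine ⟨{⟨tw b w.1, tw_mem d hd w.2⟩}, 1, fun v => ?_⟩
      rw [Finset.sup_singleton, one_smul]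
      exact psn_map_le b (psn b w.1) (T 𝕜) (tw b w.1) (fun n => le_rfl) v
    let S : 𝕜[X] →L[𝕜] 𝕜[X] := ⟨T 𝕜, hcont⟩
    have hS : ∀ n, (S ^ n) 1 = X ^ n := by
      intro n
      induction n with
      | zero => simp
      | succ n ih =>
        rw [pow_succ', mul_apply_eq_comp, ih, pow_succ']
        rfl
    refine ⟨S, 1, fun v => ?_⟩
    rw [mem_closure_iff_nhds_basis hp.hasBasis_ball]
    rintro ⟨F, r⟩ hr
    have hr' : (0 : ℝ) < r := hr
    obtain ⟨w, hw, hws⟩ := sup_fam_le b W_one W_add F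
    obtain ⟨c, hc⟩ := exists_poly (psn b w) v (half_pos hr')
    obtain ⟨j, rfl⟩ := hφ c
    obtain ⟨B, hB⟩ := hw j 0
    have h1 : Tendsto (fun l : ℕ => ((2 : ℝ)⁻¹) ^ (2 ^ Nat.pair j l) * B)
        (hyperfilter ℕ : Filter ℕ) (𝓝 (0 * B)) :=
      ((tendsto_pow_atTop_nhds_zero_of_lt_one (by norm_num) (by norm_num)).comp
        (tendsto_pow_pair j)).mul_const _
    rw [zero_mul] at h1
    have h2 : ∀ᶠ l in (hyperfilter ℕ : Filter ℕ),
        (D j).degree < ((2 ^ Nat.pair j l : ℕ) : WithBot ℕ) := by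
      filter_upwards [(tendsto_pow_pair j).eventually_gt_atTop (D j).natDegree] with l hl
      exact degree_le_natDegree.trans_lt (by exact_mod_cast hl)
    obtain ⟨l, hl1, hl2, hl3⟩ :=
      (h2.and ((h1.eventually_lt_const (half_pos hr')).and hB)).exists
    refine ⟨_, ⟨2 ^ Nat.pair j l, rfl⟩, ?_⟩
    change (S ^ (2 ^ Nat.pair j l)) 1 ∈ (F.sup (fam b W)).ball v r
    rw [hS, Seminorm.mem_ball]
    refine (hws _).trans_lt ?_
    have h3 : d (Nat.pair j l) = D j := by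
      simp only [d, Nat.unpair_pair, if_pos hl1]
    have h4 : (X ^ 2 ^ Nat.pair j l : 𝕜[X]) - D j
        = ((2 : 𝕜)⁻¹) ^ (2 ^ Nat.pair j l) • b (2 ^ Nat.pair j l + 0) := by
      change _ = _ • bas d hd (2 ^ Nat.pair j l + 0)
      rw [bas_apply, e_block d (by positivity), smul_eq_C_mul, ← mul_assoc, ← C_mul, add_zero,
        ← mul_pow, inv_mul_cancel₀ two_ne_zero, one_pow, C_1, h3, pow_zero]
      ring
    have h5 : psn b w ((X ^ 2 ^ Nat.pair j l : 𝕜[X]) - D j) < r / 2 := by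
      rw [h4, map_smul_eq_mul, psn_basis, norm_pow, norm_inv, RCLike.norm_ofNat]
      refine lt_of_le_of_lt ?_ hl2
      exact mul_le_mul_of_nonneg_left (by exact_mod_cast hl3) (by positivity)
    have h6 : psn b w (D j - v) < r / 2 := by
      rw [← neg_sub, map_neg_eq_map]
      exact hc
    calc psn b w ((X ^ 2 ^ Nat.pair j l : 𝕜[X]) - v)
        = psn b w (((X ^ 2 ^ Nat.pair j l : 𝕜[X]) - D j) + (D j - v)) := by
          rw [sub_add_sub_cancel]
      _ ≤ _ := map_add_le_add _ _ _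
      _ < r := by linarith

end Pool.Agent.Results.MP_3984bd_an.CompleteHypercyclic
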